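import Mathlib

/-!
# Sets with a short distance split into few convex parts (MP_a57197_co)

Fix two points `A`, `B` of the set.  The points `P` with a fixed difference `|PA| - |PB| = h`,
`0 < |h| < |AB|`, lie on one branch of a hyperbola and so are in convex position; `h = 0` is a line.
-/

set_option autoImplicit false

open Set
open scoped InnerProductSpace

namespace Pool.Agent.Results.MP_a57197_co.ShortDistance

/-- the plane -/
abbrev Pl := EuclideanSpace ℝ (Fin 2)

/-- the closed region bounded by the branch around `B` -/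
def reg (A B : Pl) (h : ℝ) : Set Pl := {P | dist P B + h ≤ dist P A}

/-- the affine function comparing the squares -/
noncomputable def aff (A B : Pl) (h : ℝ) (P : Pl) : ℝ := 2 * ⟪P, B - A⟫_ℝ + ‖A‖ ^ 2 - ‖B‖ ^ 2 - h ^ 2

theorem aff_eq (A B : Pl) (h : ℝ) (P : Pl) :
    aff A B h P = dist P A ^ 2 - dist P B ^ 2 - h ^ 2 := by
  rw [aff, dist_eq_norm, dist_eq_norm, norm_sub_sq_real, norm_sub_sq_real, inner_sub_right]
  ring

theorem mem_reg {A B : Pl} {h : ℝ} (hh : 0 ≤ h) {P : Pl} :
    P ∈ reg A B h ↔ 2 * h * ‖P - B‖ ≤ aff A B h P := by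
  rw [aff_eq, reg, mem_ofPred_eq, ← dist_eq_norm]
  have h1 : 0 ≤ dist P A := dist_nonneg
  have h2 : 0 ≤ dist P B := dist_nonneg
  constructor
  · intro H
    nlinarith
  · intro H
    exact (abs_le_of_sq_le_sq' (by nlinarith : (dist P B + h) ^ 2 ≤ dist P A ^ 2) h1).2

theorem aff_comb (A B : Pl) (h : ℝ) {a b : ℝ} (hab : a + b = 1) (x y : Pl) :
    aff A B h (a • x + b • y) = a * aff A B h x + b * aff A B h y := by
  simp only [aff, inner_add_left, inner_smul_left, RCLike.conj_to_real]
  have : b = 1 - a := by linarith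
  subst this
  ring

theorem comb_sub (B : Pl) {a b : ℝ} (hab : a + b = 1) (x y : Pl) :
    a • x + b • y - B = a • (x - B) + b • (y - B) := by
  have : B = a • B + b • B := by rw [← add_smul, hab, one_smul]
  conv_lhs => rw [this]
  rw [smul_sub, smul_sub]
  abel

theorem reg_convex (A B : Pl) {h : ℝ} (hh : 0 ≤ h) : Convex ℝ (reg A B h) := by
  intro x hx y hy a b ha hb hab
  rw [mem_reg hh] at hx hy ⊢
  rw [aff_comb A B h hab, comb_sub B hab]
  have h1 : ‖a • (x - B) + b • (y - B)‖ ≤ a * ‖x - B‖ + b * ‖y - B‖ := by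
    refine (norm_add_le _ _).trans (le_of_eq ?_)
    rw [norm_smul, norm_smul, Real.norm_of_nonneg ha, Real.norm_of_nonneg hb]
  nlinarith [mul_le_mul_of_nonneg_left hx ha, mul_le_mul_of_nonneg_left hy hb,
    mul_le_mul_of_nonneg_left h1 (by linarith : 0 ≤ 2 * h)]

/-- two points of the branch on one ray from the focus coincide -/
theorem ray_unique {A B : Pl} {h : ℝ} (hh : 0 < h) (hlt : h < dist A B) {x y : Pl}
    (hx : 2 * h * ‖x - B‖ = aff A B h x) (hy : 2 * h * ‖y - B‖ = aff A B h y)
    (hr : SameRay ℝ (x - B) (y - B)) : x = y := by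
  have hc : 0 < dist A B ^ 2 - h ^ 2 := by nlinarith
  have e : ∀ z : Pl, aff A B h z = 2 * ⟪z - B, B - A⟫_ℝ + (dist A B ^ 2 - h ^ 2) := by
    intro z
    rw [aff, inner_sub_left, dist_comm, dist_eq_norm, norm_sub_sq_real, inner_sub_right (𝕜 := ℝ) B,
      real_inner_self_eq_norm_sq]
    ring
  rw [e] at hx hy
  obtain ⟨v, s, t, hs, ht, hxs, hyt⟩ : ∃ (v : Pl) (s t : ℝ), 0 ≤ s ∧ 0 ≤ t ∧ x - B = s • v ∧
      y - B = t • v := by
    obtain ⟨v, s, t, hs, ht, -, hxs, hyt⟩ := hr.exists_eq_smul
    exact ⟨v, s, t, hs, ht, hxs, hyt⟩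
  rw [hxs, norm_smul, Real.norm_of_nonneg hs, real_inner_smul_left] at hx
  rw [hyt, norm_smul, Real.norm_of_nonneg ht, real_inner_smul_left] at hy
  have h1 : (s - t) * (2 * h * ‖v‖ - 2 * ⟪v, B - A⟫_ℝ) = 0 := by
    linear_combination hx - hy
  rcases mul_eq_zero.1 h1 with h2 | h2
  · have : s = t := by linarith
    subst this
    have : x - B = y - B := by rw [hxs, hyt]
    exact sub_left_injective this
  · exfalso
    have : s * (2 * h * ‖v‖ - 2 * ⟪v, B - A⟫_ℝ) = dist A B ^ 2 - h ^ 2 := by
      linear_combination hx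
    rw [h2] at this
    linarith

theorem extreme {A B : Pl} {h : ℝ} (hh : 0 < h) (hlt : h < dist A B) {P : Pl}
    (hP : dist P A = dist P B + h) : P ∈ (reg A B h).extremePoints ℝ := by
  have hP' : 2 * h * ‖P - B‖ = aff A B h P := by
    rw [aff_eq, hP, ← dist_eq_norm]
    ring
  rw [mem_extremePoints]
  refine ⟨(mem_reg hh.le).2 hP'.le, ?_⟩
  rintro x hx y hy ⟨a, b, ha, hb, hab, rfl⟩
  rw [mem_reg hh.le] at hx hy
  rw [aff_comb A B h hab, comb_sub B hab] at hP'
  have h1 : ‖a • (x - B) + b • (y - B)‖ ≤ ‖a • (x - B)‖ + ‖b • (y - B)‖ := norm_add_le _ _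
  have e1 : ‖a • (x - B)‖ = a * ‖x - B‖ := by rw [norm_smul, Real.norm_of_nonneg ha.le]
  have e2 : ‖b • (y - B)‖ = b * ‖y - B‖ := by rw [norm_smul, Real.norm_of_nonneg hb.le]
  have h2 := mul_le_mul_of_nonneg_left hx ha.le
  have h3 := mul_le_mul_of_nonneg_left hy hb.le
  have h4 := mul_le_mul_of_nonneg_left h1 (by linarith : 0 ≤ 2 * h)
  rw [e1, e2] at h4
  have h5 : 2 * h * ‖x - B‖ = aff A B h x := by
    refine le_antisymm hx ?_
    by_contra hcon
    rw [not_le] at hcon
    have := mul_lt_mul_of_pos_left hcon ha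
    nlinarith
  have h6 : 2 * h * ‖y - B‖ = aff A B h y := by
    refine le_antisymm hy ?_
    by_contra hcon
    rw [not_le] at hcon
    have := mul_lt_mul_of_pos_left hcon hb
    nlinarith
  have h7 : ‖a • (x - B) + b • (y - B)‖ = ‖a • (x - B)‖ + ‖b • (y - B)‖ := by
    have : 2 * h * (‖a • (x - B) + b • (y - B)‖) = 2 * h * (‖a • (x - B)‖ + ‖b • (y - B)‖) := by
      rw [hP', ← h5, ← h6, e1, e2]
      ring
    exact mul_left_cancel₀ (by positivity) this
  have h8 : SameRay ℝ (a • (x - B)) (b • (y - B)) := sameRay_iff_norm_add.2 h7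
  have h9 : SameRay ℝ (x - B) (y - B) := by
    have := (SameRay.sameRay_pos_smul_left (x - B) ha).symm.trans
      (h8.trans (SameRay.sameRay_pos_smul_left (y - B) hb) ?_) ?_
    · exact this
    · intro h0
      right
      exact (smul_eq_zero.1 h0).resolve_left hb.ne'
    · intro h0
      left
      exact (smul_eq_zero.1 h0).resolve_left ha.ne'
  have h10 := ray_unique hh hlt h5 h6 h9
  subst h10
  have : a • x + b • x = x := by rw [← add_smul, hab, one_smul]
  exact ⟨this.symm, this.symm⟩

/-- points of one branch are in convex position -/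
theorem branch_ind {A B : Pl} {h : ℝ} (hh : 0 < h) (hlt : h < dist A B) {q : Pl → Prop}
    (hq : ∀ x, q x → dist x A = dist x B + h) :
    ConvexIndependent ℝ (fun p : {x : Pl // q x} => (p : Pl)) := by
  intro s x hx
  by_contra hxs
  have hext := extreme hh hlt (hq x x.2)
  have hconv := ((reg_convex A B hh.le).mem_extremePoints_iff_convex_sdiff.1 hext).2
  have hsub : (fun p : {x : Pl // q x} => (p : Pl)) '' s ⊆ reg A B h \ {(x : Pl)} := by
    rintro _ ⟨y, hy, rfl⟩
    refine ⟨(hq y y.2).symm.le, ?_⟩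
    intro hyx
    exact hxs (Subtype.ext (mem_singleton_iff.1 hyx) ▸ hy)
  exact (convexHull_min hsub hconv hx).2 rfl

/-- at most two points are in convex position -/
theorem small_ind {q : Pl → Prop}
    (hq : ∀ x y z, q x → q y → q z → x = y ∨ x = z ∨ y = z) :
    ConvexIndependent ℝ (fun p : {x : Pl // q x} => (p : Pl)) := by
  intro s x hx
  by_contra hxs
  rcases s.eq_empty_or_nonempty with hs | ⟨y, hy⟩
  · simp [hs] at hx
  · have hsub : (fun p : {x : Pl // q x} => (p : Pl)) '' s ⊆ {(y : Pl)} := by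
      rintro _ ⟨z, hz, rfl⟩
      rcases hq x y z x.2 y.2 z.2 with h | h | h
      · exact absurd (Subtype.ext h ▸ hy) hxs
      · exact absurd (Subtype.ext h ▸ hz) hxs
      · exact h.symm
    have := convexHull_min hsub (convex_singleton _) hx
    exact hxs (Subtype.ext (mem_singleton_iff.1 this) ▸ hy)

/-- three points at equal distances from two points are collinear -/
theorem bisector {A B : Pl} (hAB : A ≠ B) {x y z : Pl} (hx : dist x A = dist x B)
    (hy : dist y A = dist y B) (hz : dist z A = dist z B) :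
    Collinear ℝ ({x, y, z} : Set Pl) := by
  have key : ∀ u v : Pl, dist u A = dist u B → dist v A = dist v B → ⟪u - v, B - A⟫_ℝ = 0 := by
    intro u v hu hv
    have h1 := aff_eq A B 0 u
    have h2 := aff_eq A B 0 v
    rw [hu] at h1
    rw [hv] at h2
    rw [aff] at h1 h2
    rw [inner_sub_left]
    linarith
  have hle : vectorSpan ℝ ({x, y, z} : Set Pl) ≤ (ℝ ∙ (B - A))ᗮ := by
    rw [vectorSpan, Submodule.span_le]
    have hall : ∀ u ∈ ({x, y, z} : Set Pl), dist u A = dist u B := by
      intro u hu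
      rcases hu with rfl | rfl | hu
      · exact hx
      · exact hy
      · rw [mem_singleton_iff.1 hu]
        exact hz
    rintro w ⟨u, hu, v, hv, rfl⟩
    rw [SetLike.mem_coe, Submodule.mem_orthogonal_singleton_iff_inner_left]
    exact key u v (hall u hu) (hall v hv)
  rw [collinear_iff_finrank_le_one]
  have : Fact (Module.finrank ℝ Pl = 1 + 1) := ⟨by simp⟩
  have h3 : Module.finrank ℝ (ℝ ∙ (B - A))ᗮ = 1 :=
    Submodule.finrank_orthogonal_span_singleton (sub_ne_zero.2 hAB.symm)
  rw [← h3]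
  exact Submodule.finrank_mono hle

/-- A planar set with integer distances, no three points collinear, and two points at distance
at most `d` splits into at most `2 d` subsets in convex position. -/
theorem result : ∀ (d : ℕ) (S : Finset (EuclideanSpace ℝ (Fin 2))),
    (∀ a ∈ S, ∀ b ∈ S, ∀ c ∈ S, a ≠ b → a ≠ c → b ≠ c →
      ¬ Collinear ℝ ({a, b, c} : Set (EuclideanSpace ℝ (Fin 2)))) →
    (∀ a ∈ S, ∀ b ∈ S, ∃ n : ℤ, dist a b = (n : ℝ)) →
    (∃ a ∈ S, ∃ b ∈ S, a ≠ b ∧ dist a b ≤ (d : ℝ)) →
    ∃ f : EuclideanSpace ℝ (Fin 2) → Fin (2 * d), ∀ i : Fin (2 * d),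
      ConvexIndependent ℝ
        (fun p : {x : EuclideanSpace ℝ (Fin 2) // x ∈ S ∧ f x = i} =>
          (p : EuclideanSpace ℝ (Fin 2))) := by
  classical
  intro d S hgen hint ⟨A, hA, B, hB, hAB, hd⟩
  have hpos : 0 < dist A B := dist_pos.2 hAB
  have hdR : (0 : ℝ) < d := hpos.trans_le hd
  have hd0 : 0 < d := by exact_mod_cast hdR
  -- the integer difference of the distances
  set g : Pl → ℤ := fun P => ⌊dist P A⌋ - ⌊dist P B⌋ with hg
  have hgS : ∀ P ∈ S, dist P A = dist P B + (g P : ℝ) := by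
    intro P hP
    obtain ⟨m, hm⟩ := hint P hP A hA
    obtain ⟨n, hn⟩ := hint P hP B hB
    rw [hg]
    simp only
    rw [hm, hn, Int.floor_intCast, Int.floor_intCast]
    push_cast
    ring
  -- points other than `A`, `B` have `|g| < |AB|`
  have habs : ∀ P ∈ S, P ≠ A → P ≠ B → |(g P : ℝ)| < dist A B := by
    intro P hP hPA hPB
    have hnc := hgen P hP A hA B hB hPA hPB hAB
    rw [abs_lt]
    constructor
    · by_contra hcon
      rw [not_lt] at hcon
      have h1 : dist P A + dist A B ≤ dist P B := by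
        have := hgS P hP
        linarith
      have h2 : dist P A + dist A B = dist P B := le_antisymm h1 (dist_triangle _ _ _)
      have h3 : Wbtw ℝ P A B := dist_add_dist_eq_iff.1 h2
      exact hnc h3.collinear
    · by_contra hcon
      rw [not_lt] at hcon
      have h1 : dist P B + dist B A ≤ dist P A := by
        have := hgS P hP
        rw [dist_comm B A]
        linarith
      have h2 : dist P B + dist B A = dist P A := le_antisymm h1 (dist_triangle _ _ _)
      have h3 : Wbtw ℝ P B A := dist_add_dist_eq_iff.1 h2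
      apply hnc
      have h4 := h3.collinear
      rwa [show ({P, A, B} : Set Pl) = {P, B, A} by
        rw [Set.insert_comm, Set.pair_comm P B, Set.insert_comm A B, Set.pair_comm A P,
          Set.insert_comm B P]]
  have hlt : ∀ P ∈ S, P ≠ A → P ≠ B → -(d : ℤ) < g P ∧ g P < (d : ℤ) := by
    intro P hP hPA hPB
    have h1 := (habs P hP hPA hPB).trans_le hd
    rw [abs_lt] at h1
    constructor
    · have : ((-(d : ℤ) : ℤ) : ℝ) < (g P : ℝ) := by
        push_cast
        exact h1.1
      exact_mod_cast this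
    · have : (g P : ℝ) < ((d : ℤ) : ℝ) := by
        push_cast
        exact h1.2
      exact_mod_cast this
  have : NeZero (2 * d) := ⟨by omega⟩
  refine ⟨fun P => if P = A ∨ P = B then 0 else Fin.ofNat (2 * d) (g P + d).toNat, ?_⟩
  intro i
  by_cases hi : i = 0
  · -- the class of `A`, `B`
    refine small_ind ?_
    have hcl : ∀ x, (x ∈ S ∧ (if x = A ∨ x = B then (0 : Fin (2 * d)) else
        Fin.ofNat (2 * d) (g x + d).toNat) = i) → x = A ∨ x = B := by
      rintro x ⟨hxS, hx⟩
      by_contra hcon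
      rw [if_neg hcon, hi] at hx
      have h1 := hlt x hxS (fun h => hcon (Or.inl h)) (fun h => hcon (Or.inr h))
      have h2 := congrArg Fin.val hx
      rw [Fin.val_ofNat, Fin.val_zero, Nat.mod_eq_of_lt (by omega)] at h2
      omega
    intro x y z hx hy hz
    rcases hcl x hx with h1 | h1 <;> rcases hcl y hy with h2 | h2 <;>
      rcases hcl z hz with h3 | h3 <;> simp [h1, h2, h3]
  · -- one branch
    have hcl : ∀ x, (x ∈ S ∧ (if x = A ∨ x = B then (0 : Fin (2 * d)) else
        Fin.ofNat (2 * d) (g x + d).toNat) = i) → x ∈ S ∧ x ≠ A ∧ x ≠ B ∧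
          g x = (i.val : ℤ) - d := by
      rintro x ⟨hxS, hx⟩
      by_cases hcon : x = A ∨ x = B
      · rw [if_pos hcon] at hx
        exact absurd hx.symm hi
      · rw [if_neg hcon] at hx
        have h0 : x ≠ A ∧ x ≠ B := ⟨fun h => hcon (Or.inl h), fun h => hcon (Or.inr h)⟩
        have h1 := hlt x hxS h0.1 h0.2
        have h2 := congrArg Fin.val hx
        rw [Fin.val_ofNat, Nat.mod_eq_of_lt (by omega)] at h2
        exact ⟨hxS, h0.1, h0.2, by omega⟩
    rcases lt_trichotomy ((i.val : ℤ) - d) 0 with hneg | hzero | hpos'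
    · -- branch around `A`
      by_cases hex : ∃ x, (x ∈ S ∧ (if x = A ∨ x = B then (0 : Fin (2 * d)) else
        Fin.ofNat (2 * d) (g x + d).toNat) = i)
      · obtain ⟨x0, hx0⟩ := hex
        obtain ⟨h0S, h0A, h0B, h0g⟩ := hcl x0 hx0
        have h1 := habs x0 h0S h0A h0B
        rw [h0g] at h1
        have h2 : (((i.val : ℤ) - d : ℤ) : ℝ) < 0 := by exact_mod_cast hneg
        refine branch_ind (A := B) (B := A) (h := -(((i.val : ℤ) - d : ℤ) : ℝ)) (by linarith) ?_ ?_
        · rw [abs_of_neg h2] at h1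
          rwa [dist_comm B A]
        · intro x hx
          obtain ⟨hS, hA', hB', hg'⟩ := hcl x hx
          have := hgS x hS
          rw [hg'] at this
          linarith
      · refine small_ind ?_
        intro x y z hx
        exact absurd ⟨x, hx⟩ hex
    · refine small_ind ?_
      intro x y z hx hy hz
      obtain ⟨hxS, hxA, hxB, hxg⟩ := hcl x hx
      obtain ⟨hyS, hyA, hyB, hyg⟩ := hcl y hy
      obtain ⟨hzS, hzA, hzB, hzg⟩ := hcl z hz
      rw [hzero] at hxg hyg hzg
      have ex := hgS x hxS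
      have ey := hgS y hyS
      have ez := hgS z hzS
      rw [hxg, Int.cast_zero, add_zero] at ex
      rw [hyg, Int.cast_zero, add_zero] at ey
      rw [hzg, Int.cast_zero, add_zero] at ez
      by_contra hcon
      push Not at hcon
      exact hgen x hxS y hyS z hzS hcon.1 hcon.2.1 hcon.2.2 (bisector hAB ex ey ez)
    · by_cases hex : ∃ x, (x ∈ S ∧ (if x = A ∨ x = B then (0 : Fin (2 * d)) else
        Fin.ofNat (2 * d) (g x + d).toNat) = i)
      · obtain ⟨x0, hx0⟩ := hex
        obtain ⟨h0S, h0A, h0B, h0g⟩ := hcl x0 hx0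
        have h1 := habs x0 h0S h0A h0B
        rw [h0g] at h1
        have h2 : 0 < (((i.val : ℤ) - d : ℤ) : ℝ) := by exact_mod_cast hpos'
        refine branch_ind (A := A) (B := B) (h := (((i.val : ℤ) - d : ℤ) : ℝ)) h2 ?_ ?_
        · rwa [abs_of_pos h2] at h1
        · intro x hx
          obtain ⟨hS, hA', hB', hg'⟩ := hcl x hx
          have := hgS x hS
          rwa [hg'] at this
      · refine small_ind ?_
        intro x y z hx
        exact absurd ⟨x, hx⟩ hex

end Pool.Agent.Results.MP_a57197_co.ShortDistance
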