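import Pool.Agent.CLU.DEC
import Pool.Agent.CLU.WEX
import Pool.Agent.CLU.RDX
import Pool.Agent.CLU.GPC
import Pool.Agent.CLU.WEL
import Pool.Agent.CLU.ITR
import Pool.Agent.CLU.BDC
import Pool.Agent.CLU.WSU
import Pool.Agent.CLU.ROB
import Pool.Agent.CLU.POL
import Pool.Agent.CLU.GIP
import Pool.Agent.CLU.TWO
import Pool.Agent.CLU.THD
import Pool.Agent.CLU.THC
import Pool.Agent.CLU.CIR
import Pool.Agent.CLU.UNI
import Pool.Agent.CLU.SNG
import Pool.Agent.CLU.CVR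
import Pool.Agent.CLU.PR1
import Pool.Agent.CLU.PR2
import Pool.Agent.CLU.CLP
import Pool.Agent.CLU.C3P
import Pool.Agent.CLU.CLL
import Pool.Agent.CLU.CQE
import Pool.Agent.CLU.QLC
import Pool.Agent.CLU.QLB
import Pool.Agent.CLU.QLA
import Pool.Agent.CLU.FAC
import Pool.Agent.CLU.NS0
import Pool.Agent.CLU.NSQ
import Pool.Agent.CLU.HEN
import Pool.Agent.CLU.SEL
import Pool.Agent.CLU.GPT
import Pool.Agent.CLU.BEZ
import Pool.Agent.CLU.GPO
import Pool.Agent.CLU.NRM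
import Pool.Agent.CLU.EVN
import Pool.Agent.CLU.TOW
import Pool.Agent.CLU.REL
import Pool.Agent.CLU.MIN
import Pool.Agent.CLU.DET
import Pool.Agent.CLU.APX
import Pool.Agent.CLU.BIM
import Pool.Agent.CLU.SQR
import Pool.Agent.RCX.TRI
import Pool.Agent.RCX.KLG
import Pool.Agent.RCX.CAR
import Pool.Agent.RCX.DEP
import Pool.Agent.RCX.PEE
import Pool.Agent.RCX.GRD
import Pool.Agent.RCX.MRG
import Pool.Agent.RCX.SEP
import Pool.Agent.RCX.CLS

/-!
# Clusters of integral point sets in general position (MP_a57197_co)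

The definitions (`Pool.Agent.RCX`, files Defs and St):
* `Good S`: no three points of the finite set S are collinear and all distances are integers;
* `Cp k S`: S can be split into k sets in convex position (the words of the frozen statement);
* `Thin w T`: for every q in T there is a unit vector n with ⟨x - q, n⟩ ≤ w for all x in T (q is at
  distance at most w from the boundary of the convex hull of T);
* `ThinSplit m w S`: S can be split into m sets that are `Thin w`.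
-/

set_option autoImplicit false

open Pool.Agent.RCX Pool.Agent.CLU

namespace Pool.Agent.Results.MP_a57197_co.Clusters

theorem pee : t_PEE := PEE_thm (DEP_thm TRI_thm KLG_thm CAR_thm)

theorem cls : t_CLS := CLS_thm pee GRD_thm MRG_thm

theorem nsq : t_NSQ := NSQ_thm HEN_thm

theorem gpt : t_GPT := GPT_thm BEZ_thm

theorem qla : t_QLA := QLA_thm gpt SEL_thm nsq BEZ_thm

theorem cll : t_CLL := CLL_thm (REL_thm (APX_thm SQR_thm BIM_thm) DET_thm MIN_thm BIM_thm)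
  (GPO_thm (NRM_thm TOW_thm EVN_thm)) NS0_thm FAC_thm (QLC_thm qla QLB_thm) CQE_thm

theorem two : t_TWO := TWO_thm (CLP_thm cll) C3P_thm

theorem thd : t_THD := THD_thm (THC_thm cls MRG_thm) CIR_thm UNI_thm SNG_thm

theorem gip : t_GIP := GIP_thm two CVR_thm CIR_thm UNI_thm SNG_thm PR1_thm MRG_thm

theorem wex : t_WEX := WEX_thm (WEL_thm (ITR_thm two (WSU_thm GRD_thm) BDC_thm PR2_thm) BDC_thm
  (WSU_thm GRD_thm) DEC_thm) (GPC_thm two CVR_thm PR1_thm)

theorem result :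
    (∃ C : ℕ, ∀ (S : Finset Pl) (m : ℕ) (w : ℝ), Good S → 0 ≤ w → ThinSplit m w S →
      ∀ k : ℕ, (m : ℝ) * (C * Real.log (w + 3) ^ C) ≤ k → Cp k S) ∧
    (∀ ε : ℝ, 0 < ε → ∃ C : ℕ, ∀ (S : Finset Pl) (m : ℕ) (w : ℝ), Good S → 0 ≤ w →
      ThinSplit m w S → Cp (C * m) S ∨
        ∃ a ∈ S, ∃ E ⊆ S, E.card ≤ C ∧ ∀ x ∈ S, x ∉ E → dist a x ≤ C * (w + 1) ^ (2 + ε)) ∧
    (∀ ε : ℝ, 0 < ε → ε < 1 → ∃ C : ℕ, ∀ S : Finset Pl, Good S →
      ∃ f : Pl → Fin C, ∀ i : Fin C,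
        (∃ (c : Pl) (r : ℝ), ∀ x ∈ S, f x = i → dist c x = r) ∨
        ((∀ x ∈ S, ∀ y ∈ S, f x = i → f y = i → x ≠ y →
          Metric.diam {z | z ∈ S ∧ f z = i} ^ (1 - ε) ≤ dist x y) ∧
         ∀ U ⊆ S, (∀ x ∈ U, f x = i) →
          (U.card : ℝ) ≤ C * Real.log (Metric.diam {z | z ∈ S ∧ f z = i} + 3) ^ C)) ∧
    (∀ ε : ℝ, 0 < ε → ε < 1 → ∃ C : ℕ,
      ((∃ K : ℕ, ∀ S : Finset Pl, Good S → Cp K S) ↔
        ∃ K : ℕ, ∀ S : Finset Pl, Good S →
          (∀ x ∈ S, ∀ y ∈ S, x ≠ y → Metric.diam (S : Set Pl) ^ (1 - ε) ≤ dist x y) →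
          (S.card : ℝ) ≤ C * Real.log (Metric.diam (S : Set Pl) + 3) ^ C →
          ThinSplit K (Metric.diam (S : Set Pl) ^ ((1 - ε) / 2) / 2) S)) :=
  ⟨POL_thm two thd PR1_thm gip UNI_thm SNG_thm MRG_thm, ROB_thm two thd PR2_thm MRG_thm, wex,
    RDX_thm wex pee SEP_thm CIR_thm MRG_thm⟩

end Pool.Agent.Results.MP_a57197_co.Clusters
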