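import Pool.Agent.RCX.ASG
import Pool.Agent.RCX.TRI
import Pool.Agent.RCX.KLG
import Pool.Agent.RCX.CAR
import Pool.Agent.RCX.DEP
import Pool.Agent.RCX.PEE
import Pool.Agent.RCX.GRD
import Pool.Agent.RCX.MRG
import Pool.Agent.RCX.ST3
import Pool.Agent.RCX.IRL
import Pool.Agent.RCX.EXA
import Pool.Agent.RCX.CNC
import Pool.Agent.RCX.ST5
import Pool.Agent.RCX.SEP
import Pool.Agent.RCX.CLS

/-!
# Robust convexity of integral point sets in general position (MP_a57197_co)

The definitions (`Pool.Agent.RCX`, files Defs and St):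
* `Good S`: no three points of the finite set S are collinear and all distances are integers;
* `Cp k S`: S can be split into k sets in convex position (the words of the frozen statement);
* `Thin w T`: for every q in T there is a unit vector n with ⟨x - q, n⟩ ≤ w for all x in T (q is at
  distance at most w from the boundary of the convex hull of T);
* `ThinSplit m w S`: S can be split into m sets that are `Thin w`.
-/

set_option autoImplicit false

open Pool.Agent.RCX

namespace Pool.Agent.Results.MP_a57197_co.RobustConvexity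

theorem result :
    ∀ (S : Finset Pl) (m : ℕ) (w : ℝ), Good S → 0 ≤ w → ThinSplit m w S →
      (∀ k : ℕ, (m : ℝ) * (2 * w ^ (2 / 3 : ℝ) + 1) ≤ k → Cp k S) ∧
      (∀ j : ℕ, 2560 * w ^ 12 < (j : ℝ) ^ 12 * Metric.diam (S : Set Pl) → Cp (2 * j * m) S) ∧
      (∀ j : ℕ, 0 < j → Cp (4 * j * m) S ∨ ∃ a ∈ S, ∃ E : Finset Pl, E.card ≤ 2 ∧
        ∀ x ∈ S, x ∉ E → dist a x ≤ 48 * (w / j) ^ 8) :=
  (ASM.final (PEE_thm (DEP_thm TRI_thm KLG_thm CAR_thm)) GRD_thm MRG_thm ST3_thm
    (ST5_thm (EXA_thm IRL_thm) CON_thm) SEP_thm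
    (CLS_thm (PEE_thm (DEP_thm TRI_thm KLG_thm CAR_thm)) GRD_thm MRG_thm)).1

end Pool.Agent.Results.MP_a57197_co.RobustConvexity
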